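import Mathlib

/-! Combinatorics of block densities used for the semifilter construction. -/

open Filter Topology Set

namespace Pool.Agent.Helper72.Semi

/-- index set: blocks indexed by `k`, the `k`-th block is the set of all functions on `2^k` -/
abbrev Om : Type := Σ k : ℕ, ((Fin k → ZMod 2) → ZMod 2)

abbrev X : Type := Om → ZMod 2

abbrev TT : Type := ℕ → ZMod 2

instance : Countable Om := inferInstance

instance : Infinite Om := by
  refine Infinite.of_injective (fun k : ℕ => (⟨k, fun _ => 0⟩ : Om)) ?_
  intro a b h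
  exact congrArg Sigma.fst h

theorem z2_cases (a : ZMod 2) : a = 0 ∨ a = 1 := by
  revert a; decide

theorem z2_ne_one (a : ZMod 2) : a ≠ 1 ↔ a = 0 := by
  revert a; decide

theorem z2_ne_zero (a : ZMod 2) : a ≠ 0 ↔ a = 1 := by
  revert a; decide

/-- almost inclusion -/
def Sub (x y : X) : Prop := {o | x o = 1 ∧ y o = 0}.Finite

theorem Sub.trans {x y z : X} (h1 : Sub x y) (h2 : Sub y z) : Sub x z := by
  refine (h1.union h2).subset ?_
  rintro o ⟨hx, hz⟩
  rcases z2_cases (y o) with hy | hy
  · exact Or.inl ⟨hx, hy⟩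
  · exact Or.inr ⟨hy, hz⟩

theorem Sub.refl (x : X) : Sub x x := by
  refine Set.Finite.subset Set.finite_empty ?_
  rintro o ⟨h1, h2⟩
  rw [h1] at h2
  exact absurd h2 (by decide)

theorem Sub.compl {x y : X} (h : Sub x y) : Sub (1 + y) (1 + x) := by
  refine Set.Finite.subset h ?_
  rintro o ⟨h1, h2⟩
  simp only [Pi.add_apply, Pi.one_apply] at h1 h2
  constructor
  · revert h2; generalize x o = a; revert a; decide
  · revert h1; generalize y o = a; revert a; decide

/-- the finite set of block members -/
def blk (z : X) (k : ℕ) : Finset ((Fin k → ZMod 2) → ZMod 2) :=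
  Finset.univ.filter (fun b => z ⟨k, b⟩ = 1)

noncomputable def dens (z : X) (k : ℕ) : ℝ :=
  ((blk z k).card : ℝ) / Fintype.card ((Fin k → ZMod 2) → ZMod 2)

def Large (z : X) : Prop := ∃ ε : ℝ, 0 < ε ∧ ∃ᶠ k in atTop, ε ≤ dens z k

theorem card_blk_pos (k : ℕ) : (0 : ℝ) < Fintype.card ((Fin k → ZMod 2) → ZMod 2) := by
  exact_mod_cast Fintype.card_pos

theorem dens_mono {z w : X} {k : ℕ} (h : blk z k ⊆ blk w k) : dens z k ≤ dens w k := by
  unfold dens
  exact div_le_div_of_nonneg_right (by exact_mod_cast Finset.card_le_card h) (card_blk_pos k).le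

theorem dens_add {z w v : X} {k : ℕ} (h : blk v k ⊆ blk z k ∪ blk w k) :
    dens v k ≤ dens z k + dens w k := by
  unfold dens
  rw [← add_div]
  refine div_le_div_of_nonneg_right ?_ (card_blk_pos k).le
  have := (Finset.card_le_card h).trans (Finset.card_union_le _ _)
  exact_mod_cast this

/-- a finite set of indices misses all large blocks -/
theorem eventually_blk_of_finite {A : Set Om} (hA : A.Finite) :
    ∀ᶠ k in atTop, ∀ b, (⟨k, b⟩ : Om) ∉ A := by
  have h1 : (Sigma.fst '' A).Finite := hA.image _
  obtain ⟨K, hK⟩ := h1.bddAbove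
  filter_upwards [eventually_gt_atTop K] with k hk b hb
  have := hK (Set.mem_image_of_mem Sigma.fst hb)
  simp only at this
  omega

theorem Sub.eventually {x y : X} (h : Sub x y) : ∀ᶠ k in atTop, blk x k ⊆ blk y k := by
  filter_upwards [eventually_blk_of_finite h] with k hk b hb
  simp only [blk, Finset.mem_filter, Finset.mem_univ, true_and] at hb ⊢
  by_contra hc
  exact hk b ⟨hb, (z2_ne_one _).1 hc⟩

theorem Large.mono {x y : X} (hx : Large x) (h : Sub x y) : Large y := by
  obtain ⟨ε, hε, hf⟩ := hx
  refine ⟨ε, hε, ?_⟩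
  refine (hf.and_eventually h.eventually).mono ?_
  rintro k ⟨h1, h2⟩
  exact h1.trans (dens_mono h2)

theorem not_large_iff {x : X} (h : ¬ Large x) {ε : ℝ} (hε : 0 < ε) :
    ∀ᶠ k in atTop, dens x k < ε := by
  by_contra hc
  apply h
  refine ⟨ε, hε, ?_⟩
  rw [Filter.not_eventually] at hc
  exact hc.mono fun k hk => not_lt.1 hk

theorem dens_one_eq (k : ℕ) : dens 1 k = 1 := by
  unfold dens blk
  simp only [Pi.one_apply, Finset.filter_true, Finset.card_univ]
  exact div_self (card_blk_pos k).ne'

theorem dens_zero_eq (k : ℕ) : dens 0 k = 0 := by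
  unfold dens blk
  simp

theorem large_one : Large (1 : X) := by
  refine ⟨1, one_pos, ?_⟩
  exact Frequently.of_forall fun k => (dens_one_eq k).ge

theorem not_large_zero : ¬ Large (0 : X) := by
  rintro ⟨ε, hε, hf⟩
  obtain ⟨k, hk⟩ := hf.exists
  rw [dens_zero_eq] at hk
  linarith

theorem large_or (y : X) : Large y ∨ Large (1 + y) := by
  by_contra hc
  push Not at hc
  have h1 := not_large_iff hc.1 (show (0 : ℝ) < 1 / 2 by norm_num)
  have h2 := not_large_iff hc.2 (show (0 : ℝ) < 1 / 2 by norm_num)
  obtain ⟨k, h1, h2⟩ := (h1.and h2).exists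
  have h3 : dens 1 k ≤ dens y k + dens (1 + y) k := by
    apply dens_add
    intro b _
    simp only [blk, Finset.mem_union, Finset.mem_filter, Finset.mem_univ, true_and, Pi.add_apply,
      Pi.one_apply]
    generalize y ⟨k, b⟩ = a
    revert a; decide
  rw [dens_one_eq] at h3
  linarith

theorem Large.infinite {x : X} (h : Large x) : {o | x o = 1}.Infinite := by
  intro hfin
  apply not_large_zero
  refine h.mono ?_
  refine hfin.subset ?_
  rintro o ⟨h1, _⟩
  exact h1

/-- the independent family -/
def T (t : TT) : X := fun o => o.2 (fun i => t i)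

theorem continuous_T : Continuous T := by
  refine continuous_pi fun o => ?_
  have h1 : Continuous (fun t : TT => (fun i : Fin o.1 => t i)) :=
    continuous_pi fun i => continuous_apply _
  exact (continuous_of_discreteTopology (f := o.2)).comp h1

/-- number of functions with prescribed values on a finite set -/
theorem card_prescribed {α : Type*} [Fintype α] [DecidableEq α] (P : Finset α)
    (a : α → ZMod 2) :
    (Finset.univ.filter (fun b : α → ZMod 2 => ∀ p ∈ P, b p = a p)).card * 2 ^ P.card
      = Fintype.card (α → ZMod 2) := by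
  have h1 : (Finset.univ.filter (fun b : α → ZMod 2 => ∀ p ∈ P, b p = a p))
      = Fintype.piFinset (fun p => if p ∈ P then {a p} else (Finset.univ : Finset (ZMod 2))) := by
    ext b
    simp only [Finset.mem_filter, Finset.mem_univ, true_and, Fintype.mem_piFinset]
    refine forall_congr' fun p => ?_
    by_cases hp : p ∈ P
    · simp [hp]
    · simp [hp]
  rw [h1, Fintype.card_piFinset]
  have h2 : (∏ p : α, (if p ∈ P then ({a p} : Finset (ZMod 2)) else Finset.univ).card)
      = 2 ^ (Finset.univ \ P).card := by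
    have : ∀ p : α, (if p ∈ P then ({a p} : Finset (ZMod 2)) else Finset.univ).card
        = if p ∈ P then 1 else 2 := by
      intro p
      by_cases hp : p ∈ P
      · simp [hp]
      · simp [hp, ZMod.card]
    simp only [this]
    rw [Finset.prod_ite]
    simp only [Finset.prod_const_one, one_mul, Finset.prod_const]
    congr 1
    congr 1
    ext p
    simp
  rw [h2, ← pow_add]
  rw [Fintype.card_fun, ZMod.card]
  congr 1
  rw [Finset.card_sdiff_add_card_eq_card (Finset.subset_univ P)]
  rfl

theorem frac_prescribed {k : ℕ} (P : Finset (Fin k → ZMod 2)) (a : (Fin k → ZMod 2) → ZMod 2) :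
    ((Finset.univ.filter (fun b : (Fin k → ZMod 2) → ZMod 2 => ∀ p ∈ P, b p = a p)).card : ℝ)
      / Fintype.card ((Fin k → ZMod 2) → ZMod 2) = (1 / 2) ^ P.card := by
  have h := card_prescribed P a
  have h' : ((Finset.univ.filter
      (fun b : (Fin k → ZMod 2) → ZMod 2 => ∀ p ∈ P, b p = a p)).card : ℝ) * 2 ^ P.card
      = Fintype.card ((Fin k → ZMod 2) → ZMod 2) := by
    exact_mod_cast h
  rw [div_eq_iff (card_blk_pos k).ne', ← h']
  rw [one_div, inv_pow]
  field_simp

/-- restrictions of finitely many distinct points are eventually distinct -/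
theorem eventually_injOn (A : Finset TT) :
    ∀ᶠ k in atTop, Set.InjOn (fun (t : TT) (i : Fin k) => t i) (A : Set TT) := by
  have h1 : ∀ s ∈ A, ∀ t ∈ A, ∀ᶠ k in atTop,
      ((fun i : Fin k => s i) = (fun i : Fin k => t i) → s = t) := by
    intro s _ t _
    by_cases hst : s = t
    · exact Eventually.of_forall fun k _ => hst
    · obtain ⟨n, hn⟩ := Function.ne_iff.1 hst
      filter_upwards [eventually_gt_atTop n] with k hk heq
      exact absurd (congrFun heq ⟨n, hk⟩) hn
  have h2 : ∀ᶠ k in atTop, ∀ s ∈ A, ∀ t ∈ A,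
      ((fun i : Fin k => s i) = (fun i : Fin k => t i) → s = t) := by
    rw [Filter.eventually_all_finset]
    intro s hs
    rw [Filter.eventually_all_finset]
    intro t ht
    exact h1 s hs t ht
  filter_upwards [h2] with k hk s hs t ht hst
  exact hk s hs t ht hst

/-- Claim 1: a large set sees only finitely many `T t` agreeing with a fixed function -/
theorem finite_agree {w : X} (hw : Large w) (c : X) :
    {t : TT | {o | w o = 1 ∧ T t o ≠ c o}.Finite}.Finite := by
  by_contra hinf
  obtain ⟨ε, hε, hf⟩ := hw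
  obtain ⟨N, hN⟩ := exists_pow_lt_of_lt_one (show 0 < ε / 2 by linarith)
    (show (1 / 2 : ℝ) < 1 by norm_num)
  obtain ⟨A, hA, hcard⟩ := Set.Infinite.exists_subset_card_eq (s := {t : TT |
    {o | w o = 1 ∧ T t o ≠ c o}.Finite}) hinf N
  have h1 : ∀ᶠ k in atTop, ∀ t ∈ A, ∀ b, (⟨k, b⟩ : Om) ∉ {o | w o = 1 ∧ T t o ≠ c o} := by
    rw [Filter.eventually_all_finset]
    intro t ht
    exact eventually_blk_of_finite (hA ht)
  obtain ⟨k, ⟨hk, hk1⟩, hk2⟩ := ((hf.and_eventually h1).and_eventually
    (eventually_injOn A)).exists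
  set P : Finset (Fin k → ZMod 2) := A.image (fun t i => t i) with hP
  have hPc : P.card = N := by
    rw [hP, Finset.card_image_of_injOn hk2, hcard]
  have hsub : blk w k ⊆ (Finset.univ.filter
      (fun b : (Fin k → ZMod 2) → ZMod 2 => ∀ p ∈ P, b p = (fun _ => (0 : ZMod 2)) p)) ∪
      (Finset.univ.filter
      (fun b : (Fin k → ZMod 2) → ZMod 2 => ∀ p ∈ P, b p = (fun _ => (1 : ZMod 2)) p)) := by
    intro b hb
    simp only [blk, Finset.mem_filter, Finset.mem_univ, true_and] at hb
    have hall : ∀ p ∈ P, b p = c ⟨k, b⟩ := by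
      intro p hp
      rw [hP, Finset.mem_image] at hp
      obtain ⟨t, ht, rfl⟩ := hp
      have := hk1 t ht b
      by_contra hne
      exact this ⟨hb, hne⟩
    rw [Finset.mem_union]
    rcases z2_cases (c ⟨k, b⟩) with h0 | h0
    · left
      simp only [Finset.mem_filter, Finset.mem_univ, true_and]
      intro p hp
      rw [hall p hp, h0]
    · right
      simp only [Finset.mem_filter, Finset.mem_univ, true_and]
      intro p hp
      rw [hall p hp, h0]
  have hle : dens w k ≤ (1 / 2) ^ N + (1 / 2) ^ N := by
    unfold dens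
    have h3 := (Finset.card_le_card hsub).trans (Finset.card_union_le _ _)
    have h4 : ((blk w k).card : ℝ) ≤ ((Finset.univ.filter
      (fun b : (Fin k → ZMod 2) → ZMod 2 => ∀ p ∈ P, b p = (fun _ => (0 : ZMod 2)) p)).card : ℝ) +
      ((Finset.univ.filter
      (fun b : (Fin k → ZMod 2) → ZMod 2 => ∀ p ∈ P, b p = (fun _ => (1 : ZMod 2)) p)).card : ℝ) := by
      exact_mod_cast h3
    refine (div_le_div_of_nonneg_right h4 (card_blk_pos k).le).trans ?_
    rw [add_div, frac_prescribed, frac_prescribed, hPc]
  linarith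

/-- Claim 2 -/
theorem large_add_T {s t : TT} (hst : s ≠ t) : Large (T s + T t) := by
  classical
  refine ⟨(1 / 2) ^ 2, by norm_num, ?_⟩
  apply Eventually.frequently
  filter_upwards [eventually_injOn ({s, t} : Finset TT)] with k hk
  have hne : (fun i : Fin k => s i) ≠ (fun i : Fin k => t i) := by
    intro h
    exact hst (hk (by simp) (by simp) h)
  set P : Finset (Fin k → ZMod 2) := {fun i : Fin k => s i, fun i : Fin k => t i} with hP
  have hPc : P.card = 2 := by
    rw [hP, Finset.card_pair hne]
  have hfr := frac_prescribed P (fun p => if p = (fun i : Fin k => s i) then 1 else 0)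
  rw [hPc] at hfr
  rw [← hfr]
  unfold dens
  refine div_le_div_of_nonneg_right ?_ (card_blk_pos k).le
  have : (Finset.univ.filter (fun b : (Fin k → ZMod 2) → ZMod 2 =>
      ∀ p ∈ P, b p = (fun p => if p = (fun i : Fin k => s i) then (1 : ZMod 2) else 0) p)) ⊆
      blk (T s + T t) k := by
    intro b hb
    simp only [Finset.mem_filter, Finset.mem_univ, true_and] at hb
    simp only [blk, Finset.mem_filter, Finset.mem_univ, true_and, Pi.add_apply, T]
    have h1 := hb (fun i => s i) (by simp [hP])
    have h2 := hb (fun i => t i) (by simp [hP])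
    simp only [if_true] at h1
    rw [if_neg (Ne.symm hne)] at h2
    rw [h1, h2]
    decide
  exact_mod_cast Finset.card_le_card this

theorem subsingleton_not_large (x : X) : {t : TT | ¬ Large (x + T t)}.Subsingleton := by
  intro s hs t ht
  by_contra hst
  have hL := large_add_T hst
  obtain ⟨ε, hε, hf⟩ := hL
  have h1 := not_large_iff hs (show (0 : ℝ) < ε / 2 by linarith)
  have h2 := not_large_iff ht (show (0 : ℝ) < ε / 2 by linarith)
  obtain ⟨k, hk, h1, h2⟩ := (hf.and_eventually (h1.and h2)).exists
  have h3 : dens (T s + T t) k ≤ dens (x + T s) k + dens (x + T t) k := by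
    apply dens_add
    intro b
    simp only [blk, Finset.mem_union, Finset.mem_filter, Finset.mem_univ, true_and, Pi.add_apply]
    generalize x ⟨k, b⟩ = a
    generalize T s ⟨k, b⟩ = p
    generalize T t ⟨k, b⟩ = q
    revert a p q; decide
  linarith

theorem finite_sub_left {w : X} (hw : Large w) (x : X) : {t : TT | Sub w (x + T t)}.Finite := by
  refine (finite_agree hw (x + 1)).subset ?_
  intro t ht
  refine Set.Finite.subset ht ?_
  rintro o ⟨h1, h2⟩
  refine ⟨h1, ?_⟩
  simp only [Pi.add_apply, Pi.one_apply] at h2 ⊢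
  revert h2
  generalize x o = a
  generalize T t o = p
  revert a p; decide

theorem finite_sub_right {e : X} (he : Large (1 + e)) (x : X) :
    {t : TT | Sub (x + T t) e}.Finite := by
  refine (finite_agree he x).subset ?_
  intro t ht
  refine Set.Finite.subset ht ?_
  have key : ∀ a p q : ZMod 2, 1 + q = 1 → p ≠ a → a + p = 1 ∧ q = 0 := by decide
  rintro o ⟨h1, h2⟩
  exact key (x o) (T t o) (e o) h1 h2

end Pool.Agent.Helper72.Semi
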