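import Mathlib

/-! Definitions used in the statement about strong homogeneity of semifilters.
A subset of `ω` is given by its characteristic function `ℕ → Bool`; the space `ℕ → Bool` carries
the product topology (the Cantor set). -/

namespace Pool.Agent.Helper72.Semi

/-- `x ⊆* y`: all but finitely many elements of `x` are in `y`. -/
def AlmostSubset (x y : ℕ → Bool) : Prop := {n : ℕ | x n = true ∧ y n = false}.Finite

/-- A semifilter on `ω`: a nonempty family of infinite subsets of `ω`, upward closed under `⊆*`. -/
structure IsSemifilter (S : Set (ℕ → Bool)) : Prop where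
  nonempty : S.Nonempty
  infinite : ∀ x ∈ S, {n : ℕ | x n = true}.Infinite
  upward : ∀ x ∈ S, ∀ y : ℕ → Bool, AlmostSubset x y → y ∈ S

/-- Strong homogeneity (`h`-homogeneity): every nonempty clopen subspace is homeomorphic to the
whole space. -/
def StronglyHomogeneous (X : Type) [TopologicalSpace X] : Prop :=
  ∀ U : Set X, IsClopen U → U.Nonempty → Nonempty (U ≃ₜ X)

end Pool.Agent.Helper72.Semi
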