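import Pool.Agent.Helper72.Semi.Comb

/-! Measure-theoretic part of the semifilter construction. -/

open Filter Topology Set MeasureTheory

namespace Pool.Agent.Helper72.Semi

/-- a base index -/
def o0 : Om := ⟨0, fun _ => 0⟩

noncomputable def mu : Measure X := Measure.addHaar

noncomputable instance : mu.IsAddHaarMeasure := by unfold mu; infer_instance
noncomputable instance : IsFiniteMeasure mu := ⟨isCompact_univ.measure_lt_top⟩

noncomputable def nu : Measure TT := Measure.addHaar

noncomputable instance : nu.IsAddHaarMeasure := by unfold nu; infer_instance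
noncomputable instance : IsFiniteMeasure nu := ⟨isCompact_univ.measure_lt_top⟩

instance : (𝓝[≠] (0 : TT)).NeBot := by
  have h : Tendsto (fun n : ℕ => (Pi.single n (1 : ZMod 2) : TT)) atTop (𝓝 0) := by
    rw [tendsto_pi_nhds]
    intro i
    refine tendsto_const_nhds.congr' ?_
    filter_upwards [eventually_gt_atTop i] with n hn
    simp [hn.ne]
  have h2 : Tendsto (fun n : ℕ => (Pi.single n (1 : ZMod 2) : TT)) atTop (𝓝[≠] 0) := by
    rw [tendsto_nhdsWithin_iff]
    refine ⟨h, Eventually.of_forall fun n => ?_⟩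
    intro hc
    have := congrFun hc n
    simp at this
  exact h2.neBot

theorem exists_section {K : Set X} (hK : IsClosed K) (hpos : mu K ≠ 0) :
    ∃ x0 : X, nu {t : TT | x0 + T t ∈ K} ≠ 0 := by
  by_contra hc
  push Not at hc
  have hcont : Continuous (fun p : X × TT => p.1 + T p.2) :=
    continuous_fst.add (continuous_T.comp continuous_snd)
  have hclosed : IsClosed {p : X × TT | p.1 + T p.2 ∈ K} := hK.preimage hcont
  have hmeas : MeasurableSet {p : X × TT | p.1 + T p.2 ∈ K} := hclosed.measurableSet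
  have h1 : (mu.prod nu) {p : X × TT | p.1 + T p.2 ∈ K} = 0 := by
    rw [Measure.prod_apply hmeas]
    have : ∀ x : X, nu (Prod.mk x ⁻¹' {p : X × TT | p.1 + T p.2 ∈ K}) = 0 := fun x => hc x
    simp only [this, lintegral_const, zero_mul]
  rw [Measure.prod_apply_symm hmeas] at h1
  have h2 : ∀ t : TT, mu ((fun x : X => (x, t)) ⁻¹' {p : X × TT | p.1 + T p.2 ∈ K}) = mu K := by
    intro t
    exact measure_preimage_add_right mu (T t) K
  simp only [h2, lintegral_const, mul_eq_zero] at h1
  rcases h1 with h1 | h1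
  · exact hpos h1
  · exact (Measure.measure_univ_ne_zero.2 (NeZero.ne nu)) h1

open Cardinal in
theorem card_of_pos {C : Set TT} (hC : IsClosed C) (h : nu C ≠ 0) : 𝔠 ≤ #C := by
  have : PolishSpace (ZMod 2) := by
    let _ : MetricSpace (ZMod 2) := TopologicalSpace.metrizableSpaceMetric (ZMod 2)
    infer_instance
  have : PolishSpace TT := inferInstanceAs (PolishSpace (ℕ → ZMod 2))
  have hnc : ¬ C.Countable := fun hc => h (hc.measure_zero nu)
  obtain ⟨f, hf1, _, hf3⟩ := hC.exists_nat_bool_injection_of_not_countable hnc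
  have h1 : #(ℕ → Bool) ≤ #C :=
    Cardinal.mk_le_of_injective (f := fun z => (⟨f z, hf1 ⟨z, rfl⟩⟩ : C))
      (fun a b hab => hf3 (congrArg Subtype.val hab))
  have h2 : #(ℕ → Bool) = 𝔠 := by
    simp
  rwa [h2] at h1

open Cardinal in
theorem exists_many {C : Set X} (hC : MeasurableSet C) (hpos : mu C ≠ 0) :
    ∃ x0 : X, 𝔠 ≤ #{t : TT | x0 + T t ∈ C} := by
  obtain ⟨K, hKC, hK, hKpos⟩ := hC.exists_lt_isClosed_of_ne_top (measure_ne_top mu C)
    (pos_iff_ne_zero.2 hpos)
  obtain ⟨x0, hx0⟩ := exists_section hK hKpos.ne'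
  refine ⟨x0, ?_⟩
  have hcont : Continuous (fun t : TT => x0 + T t) := continuous_const.add continuous_T
  refine (card_of_pos (hK.preimage hcont) hx0).trans ?_
  exact Cardinal.mk_le_mk_of_subset fun t ht => hKC ht

section ext

variable (P : Set X) (φ : P → X)

/-- `φ` (defined on `P`) is locally constant `= b` in coordinate `n` near `x` -/
def Ev (x : X) (n : Om) (b : ZMod 2) : Prop :=
  ∀ᶠ y in 𝓝 x, ∀ h : y ∈ P, φ ⟨y, h⟩ n = b

theorem isOpen_Ev (n : Om) (b : ZMod 2) : IsOpen {x | Ev P φ x n b} :=
  isOpen_setOfPred_eventually_nhds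

/-- domain of the continuous extension -/
def dom : Set X := {x | ∀ n, ∃ b, Ev P φ x n b}

open Classical in
/-- continuous extension -/
noncomputable def ext (x : X) : X := fun n => if Ev P φ x n 1 then 1 else 0

theorem measurableSet_dom : MeasurableSet (dom P φ) := by
  have : dom P φ = ⋂ n, ⋃ b, {x | Ev P φ x n b} := by
    ext x
    simp only [dom, Set.mem_iInter, Set.mem_iUnion]
    rfl
  rw [this]
  exact MeasurableSet.iInter fun n => MeasurableSet.iUnion fun b => (isOpen_Ev P φ n b).measurableSet

theorem measurable_ext : Measurable (ext P φ) := by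
  refine measurable_pi_lambda _ fun n => ?_
  exact Measurable.ite (isOpen_Ev P φ n 1).measurableSet measurable_const measurable_const

theorem ext_eq {S : Set X} (hPS : P ⊆ S) (f : S → X) (hf : Continuous f)
    (hφ : ∀ z : P, φ z = f ⟨z, hPS z.2⟩) {x : X} (hx : x ∈ S) (hcl : x ∈ closure P) :
    x ∈ dom P φ ∧ ext P φ x = f ⟨x, hx⟩ := by
  have hEv : ∀ n, Ev P φ x n (f ⟨x, hx⟩ n) := by
    intro n
    have h1 : ∀ᶠ z in 𝓝 (⟨x, hx⟩ : S), f z n = f ⟨x, hx⟩ n := by
      have hc : Continuous fun z : S => f z n := (continuous_apply n).comp hf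
      have : Tendsto (fun z : S => f z n) (𝓝 ⟨x, hx⟩) (𝓝 (f ⟨x, hx⟩ n)) := hc.tendsto _
      rw [nhds_discrete (ZMod 2), tendsto_pure] at this
      exact this
    rw [nhds_subtype_eq_comap, eventually_comap] at h1
    refine h1.mono ?_
    intro y hy h
    rw [hφ ⟨y, h⟩]
    exact hy ⟨y, hPS h⟩ rfl
  refine ⟨fun n => ⟨_, hEv n⟩, ?_⟩
  have huniq : ∀ n b, Ev P φ x n b → f ⟨x, hx⟩ n = b := by
    intro n b hb
    obtain ⟨y, ⟨h1, h2⟩, hy⟩ := (((hEv n).and hb).and_frequently
      (mem_closure_iff_frequently.1 hcl)).exists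
    rw [← h1 hy, h2 hy]
  funext n
  unfold ext
  split_ifs with h
  · exact (huniq n 1 h).symm
  · rcases z2_cases (f ⟨x, hx⟩ n) with h0 | h0
    · exact h0.symm
    · exact absurd (h0 ▸ hEv n) h

end ext

/-- indices of cofinite sets -/
def D : Set X := {x | {o | x o = 0}.Finite}

def D0 : Set X := {x | x ∈ D ∧ x o0 = 0}

variable (φ : D → X) (ψ : D0 → X)

/-- good domain of the candidate pair -/
def G : Set X := {x | x ∈ dom D φ ∧ ext D φ x ∈ dom D0 ψ ∧ ext D0 ψ (ext D φ x) = x ∧
  ext D φ x o0 = 0}

theorem measurableSet_G : MeasurableSet (G φ ψ) := by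
  have h1 := measurable_ext D φ
  have h2 := measurable_ext D0 ψ
  have h3 : MeasurableSet {x | ext D0 ψ (ext D φ x) = x} := by
    have : {x | ext D0 ψ (ext D φ x) = x} = ⋂ n, {x | ext D0 ψ (ext D φ x) n = x n} := by
      ext x
      simp only [Set.mem_iInter]
      exact funext_iff
    rw [this]
    refine MeasurableSet.iInter fun n => ?_
    exact measurableSet_eq_fun ((measurable_pi_apply n).comp (h2.comp h1))
      (measurable_pi_apply n)
  have h4 : MeasurableSet {x | ext D φ x o0 = 0} :=
    ((measurable_pi_apply o0).comp h1) (measurableSet_singleton 0)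
  exact (measurableSet_dom D φ).inter ((h1 (measurableSet_dom D0 ψ)).inter (h3.inter h4))

open Classical in
/-- indicator of a finite set -/
noncomputable def one (F : Finset Om) : X := fun o => if o ∈ F then 1 else 0

theorem one_injective : Function.Injective one := by
  intro F F' h
  ext o
  have := congrFun h o
  unfold one at this
  by_cases h1 : o ∈ F <;> by_cases h2 : o ∈ F' <;> simp_all

theorem add_self_X (x : X) : x + x = 0 := by
  funext o
  simp only [Pi.add_apply, Pi.zero_apply]
  generalize x o = a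
  revert a; decide

/-- the set on which we can diagonalise -/
def Cset : Set X := {x | x ∈ G φ ψ → ¬ {o | x o ≠ ext D φ x o}.Finite}

def AF (F : Finset Om) : Set X := {x | x ∈ G φ ψ ∧ ext D φ x = x + one F}

theorem compl_Cset : (Cset φ ψ)ᶜ = ⋃ F : Finset Om, AF φ ψ F := by
  ext x
  simp only [Cset, Set.mem_compl_iff, Set.mem_iUnion]
  constructor
  · intro h
    have h' : x ∈ G φ ψ ∧ {o | x o ≠ ext D φ x o}.Finite := by
      by_contra hc
      apply h
      intro hG hfin
      exact hc ⟨hG, hfin⟩
    refine ⟨h'.2.toFinset, h'.1, ?_⟩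
    funext o
    simp only [Pi.add_apply, one, Set.Finite.mem_toFinset]
    have key : ∀ a b : ZMod 2, b = a + (if a ≠ b then 1 else 0) := by decide
    convert key (x o) (ext D φ x o) using 3
    exact Iff.rfl
  · rintro ⟨F, hG, hF⟩ hc
    apply hc hG
    refine F.finite_toSet.subset ?_
    intro o ho
    by_contra hoF
    apply ho
    rw [hF]
    have : o ∉ F := hoF
    simp [one, this]

theorem measurableSet_AF (F : Finset Om) : MeasurableSet (AF φ ψ F) := by
  have h1 := measurable_ext D φ
  have h3 : MeasurableSet {x | ext D φ x = x + one F} := by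
    have : {x | ext D φ x = x + one F} = ⋂ n, {x | ext D φ x n = x n + one F n} := by
      ext x
      simp only [Set.mem_iInter]
      exact funext_iff
    rw [this]
    refine MeasurableSet.iInter fun n => ?_
    exact measurableSet_eq_fun ((measurable_pi_apply n).comp h1)
      ((measurable_pi_apply n).add_const _)
  exact (measurableSet_G φ ψ).inter h3

theorem measurableSet_Cset : MeasurableSet (Cset φ ψ) := by
  rw [← compl_compl (Cset φ ψ), compl_Cset]
  exact (MeasurableSet.iUnion fun F => measurableSet_AF φ ψ F).compl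

theorem mu_Cset : mu (Cset φ ψ) ≠ 0 := by
  intro h0
  set B : Finset Om → Set X := fun F => {z | z + one F ∈ AF φ ψ F} with hB
  have hBm : ∀ F, MeasurableSet (B F) := fun F =>
    (measurable_add_const (one F)) (measurableSet_AF φ ψ F)
  have hBmu : ∀ F, mu (B F) = mu (AF φ ψ F) := fun F =>
    measure_preimage_add_right mu (one F) (AF φ ψ F)
  have hBval : ∀ F, ∀ z ∈ B F, ext D φ (z + one F) = z := by
    intro F z hz
    rw [hz.2, add_assoc, add_self_X, add_zero]
  have hBsub : (⋃ F, B F) ⊆ {z : X | z o0 = 0} := by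
    intro z hz
    obtain ⟨F, hF⟩ := Set.mem_iUnion.1 hz
    have h1 := hBval F z hF
    have h2 := hF.1.2.2.2
    rw [h1] at h2
    exact h2
  have hdisj : Pairwise (Function.onFun Disjoint B) := by
    intro F F' hFF'
    rw [Function.onFun, Set.disjoint_left]
    intro z hz hz'
    apply hFF'
    apply one_injective
    have h1 := hBval F z hz
    have h2 := hBval F' z hz'
    have h3 := hz.1.2.2.1
    have h4 := hz'.1.2.2.1
    rw [h1] at h3
    rw [h2] at h4
    exact add_left_cancel (h3.symm.trans h4)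
  have h1 : mu univ ≤ ∑' F, mu (AF φ ψ F) := by
    have : (univ : Set X) = Cset φ ψ ∪ ⋃ F, AF φ ψ F := by
      rw [← compl_Cset]; exact (Set.union_compl_self _).symm
    rw [this]
    refine (measure_union_le _ _).trans ?_
    rw [h0, zero_add]
    exact measure_iUnion_le _
  have h2 : ∑' F, mu (AF φ ψ F) = mu (⋃ F, B F) := by
    rw [measure_iUnion hdisj hBm]
    exact tsum_congr fun F => (hBmu F).symm
  have h3 : mu univ ≤ mu {z : X | z o0 = 0} := by
    rw [h2] at h1
    exact h1.trans (measure_mono hBsub)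
  have hopen : IsOpen {z : X | z o0 = 0}ᶜ := by
    have : {z : X | z o0 = 0} = (fun z : X => z o0) ⁻¹' {0} := rfl
    rw [this, ← Set.preimage_compl]
    exact (isOpen_discrete _).preimage (continuous_apply o0)
  have hne : ({z : X | z o0 = 0}ᶜ).Nonempty := by
    refine ⟨fun _ => 1, ?_⟩
    intro h
    exact absurd (show (1 : ZMod 2) = 0 from h) (by decide)
  have h4 : 0 < mu {z : X | z o0 = 0}ᶜ := hopen.measure_pos mu hne
  have h5 : mu {z : X | z o0 = 0} + mu {z : X | z o0 = 0}ᶜ = mu univ :=
    measure_add_measure_compl (hopen.measurableSet.of_compl)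
  have h6 : mu {z : X | z o0 = 0} ≠ ⊤ := measure_ne_top _ _
  rw [← h5] at h3
  have h7 := ENNReal.lt_add_right h6 h4.ne'
  exact absurd h3 (not_le.2 h7)

end Pool.Agent.Helper72.Semi
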