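import Pool.Agent.Helper72.Semi.Meas

/-! Transfinite recursion of the semifilter construction. -/

open Filter Topology Set MeasureTheory Cardinal

namespace Pool.Agent.Helper72.Semi

theorem exists_fresh {J : Type} (hJ : #J < 𝔠) (I E : J → X) (hI : ∀ j, Large (I j))
    (hE : ∀ j, Large (1 + E j)) {C : Set X} (hC : MeasurableSet C) (hpos : mu C ≠ 0) :
    ∃ x ∈ C, Large x ∧ Large (1 + x) ∧ (∀ j, ¬ Sub (I j) x) ∧ (∀ j, ¬ Sub x (E j)) := by
  obtain ⟨x0, hx0⟩ := exists_many hC hpos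
  set Bad : Set TT := (⋃ j, {t : TT | Sub (I j) (x0 + T t)}) ∪
    (⋃ j, {t : TT | Sub (x0 + T t) (E j)}) ∪ ({t : TT | ¬ Large (x0 + T t)} ∪
      {t : TT | ¬ Large (1 + x0 + T t)}) with hBad
  have hcard : ∀ (A : J → Set TT), (∀ j, (A j).Finite) → #(⋃ j, A j) < 𝔠 := by
    intro A hA
    refine (Cardinal.mk_iUnion_le_sum_mk).trans_lt ?_
    have h1 : Cardinal.sum (fun j => #(A j)) ≤ Cardinal.sum (fun _ : J => ℵ₀) :=
      Cardinal.sum_le_sum _ _ fun j => (Cardinal.lt_aleph0_iff_set_finite.2 (hA j)).le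
    refine h1.trans_lt ?_
    rw [Cardinal.sum_const']
    exact Cardinal.mul_lt_of_lt aleph0_le_continuum hJ aleph0_lt_continuum
  have hsmall : ∀ (A : Set TT), A.Finite → #A < 𝔠 := fun A hA =>
    (Cardinal.lt_aleph0_iff_set_finite.2 hA).trans aleph0_lt_continuum
  have hBadcard : #Bad < 𝔠 := by
    rw [hBad]
    refine (Cardinal.mk_union_le _ _).trans_lt (Cardinal.add_lt_of_lt aleph0_le_continuum ?_ ?_)
    · refine (Cardinal.mk_union_le _ _).trans_lt (Cardinal.add_lt_of_lt aleph0_le_continuum ?_ ?_)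
      · exact hcard _ fun j => finite_sub_left (hI j) x0
      · exact hcard _ fun j => finite_sub_right (hE j) x0
    · refine hsmall _ (Set.Finite.union ?_ ?_)
      · exact (subsingleton_not_large x0).finite
      · exact (subsingleton_not_large (1 + x0)).finite
  have hex : ∃ t ∈ {t : TT | x0 + T t ∈ C}, t ∉ Bad := by
    by_contra hc
    push Not at hc
    exact absurd (hx0.trans (Cardinal.mk_le_mk_of_subset hc)) (not_le.2 hBadcard)
  obtain ⟨t, ht, htB⟩ := hex
  rw [hBad] at htB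
  simp only [Set.mem_union, Set.mem_iUnion, not_or, not_exists] at htB
  obtain ⟨⟨h1, h2⟩, h3, h4⟩ := htB
  refine ⟨x0 + T t, ht, ?_, ?_, ?_, ?_⟩
  · by_contra h; exact h3 h
  · by_contra h
    rw [← add_assoc] at h
    exact h4 h
  · intro j h; exact h1 j h
  · intro j h; exact h2 j h

variable (φ : D → X) (ψ : D0 → X)

/-- killing of a candidate pair -/
def Kill (i e : X) : Prop :=
  i ∉ G φ ψ ∨ (i ∈ G φ ψ ∧ e = ext D φ i) ∨ (e ∈ G φ ψ ∧ i = ext D φ e)

theorem stage {J : Type} (hJ : #J < 𝔠) (I E : J → X) (hI : ∀ j, Large (I j))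
    (hE : ∀ j, Large (1 + E j)) (hIE : ∀ j j', ¬ Sub (I j) (E j')) :
    ∃ p : X × X, Large p.1 ∧ Large (1 + p.2) ∧ ¬ Sub p.1 p.2 ∧ (∀ j, ¬ Sub (I j) p.2) ∧
      (∀ j, ¬ Sub p.1 (E j)) ∧ Kill φ ψ p.1 p.2 := by
  obtain ⟨x, hxC, hxL, hxL', hIx, hxE⟩ := exists_fresh hJ I E hI hE (measurableSet_Cset φ ψ)
    (mu_Cset φ ψ)
  by_cases hxG : x ∈ G φ ψ
  · have hne : ¬ {o | x o ≠ ext D φ x o}.Finite := hxC hxG
    set y := ext D φ x with hy
    by_cases ha : ∃ j, Sub (I j) y
    · obtain ⟨j, hj⟩ := ha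
      refine ⟨(y, x), (hI j).mono hj, hxL', ?_, hIx, ?_, Or.inr (Or.inr ⟨hxG, hy⟩)⟩
      · intro h
        exact hIx j (hj.trans h)
      · intro j' h
        exact hIE j j' (hj.trans h)
    · push Not at ha
      by_cases hb : ∃ j, Sub y (E j)
      · obtain ⟨j, hj⟩ := hb
        refine ⟨(x, y), hxL, (hE j).mono hj.compl, ?_, ha, hxE, Or.inr (Or.inl ⟨hxG, hy⟩)⟩
        intro h
        exact hxE j (h.trans hj)
      · push Not at hb
        by_cases hc : ¬ Sub x y ∧ Large (1 + y)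
        · exact ⟨(x, y), hxL, hc.2, hc.1, ha, hxE, Or.inr (Or.inl ⟨hxG, hy⟩)⟩
        · by_cases hd : ¬ Sub y x ∧ Large y
          · exact ⟨(y, x), hd.2, hxL', hd.1, hIx, hb, Or.inr (Or.inr ⟨hxG, hy⟩)⟩
          · exfalso
            have hc' : Sub x y ∨ ¬ Large (1 + y) := by tauto
            have hd' : Sub y x ∨ ¬ Large y := by tauto
            rcases hc' with hc' | hc'
            · rcases hd' with hd' | hd'
              · apply hne
                refine (hc'.union hd').subset ?_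
                intro o ho
                have key : ∀ a b : ZMod 2, a ≠ b → (a = 1 ∧ b = 0) ∨ (b = 1 ∧ a = 0) := by decide
                exact key _ _ ho
              · exact hd' (hxL.mono hc')
            · rcases hd' with hd' | hd'
              · exact hc' (hxL'.mono hd'.compl)
              · exact (large_or y).elim hd' hc'
  · refine ⟨(x, 0), hxL, ?_, ?_, ?_, hxE, Or.inl hxG⟩
    · rw [add_zero]; exact large_one
    · intro h; exact not_large_zero (hxL.mono h)
    · intro j h; exact not_large_zero ((hI j).mono h)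

/-- index type of the recursion -/
abbrev Idx : Type := (𝔠 : Cardinal.{0}).ord.ToType

theorem countable_D : D.Countable := by
  have : D ⊆ Set.range (fun F : Finset Om => (1 + one F : X)) := by
    intro x hx
    refine ⟨hx.toFinset, ?_⟩
    funext o
    simp only [Pi.add_apply, Pi.one_apply, one, Set.Finite.mem_toFinset]
    have key : ∀ a : ZMod 2, 1 + (if a = 0 then 1 else 0) = a := by decide
    convert key (x o) using 3
    exact Iff.rfl
  exact (Set.countable_range _).mono this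

theorem mk_fun_le {α : Type} [Countable α] : #(α → X) ≤ 𝔠 := by
  have h1 : #X ≤ 𝔠 := by
    have : #X = 𝔠 := by
      simp [X]
    exact this.le
  have h2 : #(α → X) = #X ^ #α := by simp
  rw [h2]
  calc #X ^ #α ≤ 𝔠 ^ #α := Cardinal.power_le_power_right h1
    _ ≤ 𝔠 ^ ℵ₀ := Cardinal.power_le_power_left continuum_ne_zero Cardinal.mk_le_aleph0
    _ = 𝔠 := continuum_power_aleph0

theorem exists_enum : ∃ e : Idx → (D → X) × (D0 → X), Function.Surjective e := by
  have : Countable D := countable_D.to_subtype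
  have : Countable D0 := (countable_D.mono (fun x hx => hx.1)).to_subtype
  have h1 : #((D → X) × (D0 → X)) ≤ 𝔠 := by
    rw [Cardinal.mk_prod, Cardinal.lift_id, Cardinal.lift_id]
    exact (mul_le_mul' mk_fun_le mk_fun_le).trans (Cardinal.continuum_mul_self).le
  have h2 : #Idx = 𝔠 := Cardinal.mk_ord_toType 𝔠
  rw [← h2] at h1
  obtain ⟨f⟩ := h1
  exact ⟨Function.invFun f, Function.invFun_surjective f.injective⟩

/-- properties of a good new pair, given the previous ones -/
def Good (e : Idx → (D → X) × (D0 → X)) (a : Idx) (prev : ∀ b : Idx, b < a → X × X)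
    (p : X × X) : Prop :=
  Large p.1 ∧ Large (1 + p.2) ∧ ¬ Sub p.1 p.2 ∧ (∀ b hb, ¬ Sub (prev b hb).1 p.2) ∧
    (∀ b hb, ¬ Sub p.1 (prev b hb).2) ∧ Kill (e a).1 (e a).2 p.1 p.2

open Classical in
noncomputable def step (e : Idx → (D → X) × (D0 → X)) (a : Idx)
    (prev : ∀ b : Idx, b < a → X × X) : X × X :=
  if h : ∃ p, Good e a prev p then h.choose else (0, 0)

noncomputable def seq (e : Idx → (D → X) × (D0 → X)) : Idx → X × X :=
  WellFounded.fix (r := (· < ·)) wellFounded_lt (step e)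

theorem seq_eq (e : Idx → (D → X) × (D0 → X)) (a : Idx) :
    seq e a = step e a (fun b _ => seq e b) := by
  unfold seq
  rw [WellFounded.fix_eq]

theorem seq_good (e : Idx → (D → X) × (D0 → X)) (a : Idx) :
    Good e a (fun b _ => seq e b) (seq e a) := by
  induction a using WellFoundedLT.induction with
  | _ a ih =>
    have hex : ∃ p, Good e a (fun b _ => seq e b) p := by
      have hJ : #(Set.Iio a) < 𝔠 := Cardinal.mk_Iio_toType_ord_lt a
      obtain ⟨p, h1, h2, h3, h4, h5, h6⟩ := stage (e a).1 (e a).2 (J := Set.Iio a) hJ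
        (fun j => (seq e j.1).1) (fun j => (seq e j.1).2)
        (fun j => (ih j.1 j.2).1) (fun j => (ih j.1 j.2).2.1) (by
          intro j j'
          rcases lt_trichotomy j.1 j'.1 with hlt | heq | hgt
          · exact (ih j'.1 j'.2).2.2.2.1 j.1 hlt
          · have := (ih j.1 j.2).2.2.1
            rw [← heq]
            exact this
          · exact (ih j.1 j.2).2.2.2.2.1 j'.1 hgt)
      exact ⟨p, h1, h2, h3, fun b hb => h4 ⟨b, hb⟩, fun b hb => h5 ⟨b, hb⟩, h6⟩
    rw [seq_eq e a]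
    unfold step
    rw [dif_pos hex]
    exact hex.choose_spec

theorem seq_not_sub (e : Idx → (D → X) × (D0 → X)) (a b : Idx) :
    ¬ Sub (seq e a).1 (seq e b).2 := by
  rcases lt_trichotomy a b with hlt | heq | hgt
  · exact (seq_good e b).2.2.2.1 a hlt
  · rw [heq]; exact (seq_good e b).2.2.1
  · exact (seq_good e a).2.2.2.2.1 b hgt

/-- the semifilter -/
def SF (e : Idx → (D → X) × (D0 → X)) : Set X := {z | ∃ a, Sub (seq e a).1 z} ∪ D

theorem D_subset (e : Idx → (D → X) × (D0 → X)) : D ⊆ SF e := fun _ h => Or.inr h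

theorem SF_up (e : Idx → (D → X) × (D0 → X)) {z w : X} (hz : z ∈ SF e) (h : Sub z w) :
    w ∈ SF e := by
  rcases hz with ⟨a, ha⟩ | hz
  · exact Or.inl ⟨a, ha.trans h⟩
  · right
    refine (hz.union h).subset ?_
    intro o ho
    rcases z2_cases (z o) with h0 | h0
    · exact Or.inl h0
    · exact Or.inr ⟨h0, ho⟩

theorem SF_infinite (e : Idx → (D → X) × (D0 → X)) {z : X} (hz : z ∈ SF e) :
    {o | z o = 1}.Infinite := by
  rcases hz with ⟨a, ha⟩ | hz
  · exact ((seq_good e a).1.mono ha).infinite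
  · intro hfin
    have h1 : (univ : Set Om) ⊆ {o | z o = 0} ∪ {o | z o = 1} := fun o _ => z2_cases (z o)
    exact Set.infinite_univ ((Set.Finite.union hz hfin).subset h1)

theorem seq_snd_not_mem (e : Idx → (D → X) × (D0 → X)) (a : Idx) : (seq e a).2 ∉ SF e := by
  rintro (⟨b, hb⟩ | hD)
  · exact seq_not_sub e b a hb
  · have h1 := (seq_good e a).2.1.infinite
    apply h1
    refine Set.Finite.subset hD ?_
    intro o ho
    have key : ∀ a : ZMod 2, 1 + a = 1 → a = 0 := by decide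
    exact key _ ho

theorem seq_fst_mem (e : Idx → (D → X) × (D0 → X)) (a : Idx) : (seq e a).1 ∈ SF e :=
  Or.inl ⟨a, Sub.refl _⟩

theorem dense_D (x : X) : x ∈ closure D := by
  rw [mem_closure_iff_nhds]
  intro t ht
  rw [nhds_pi, Filter.mem_pi] at ht
  obtain ⟨I, hI, s, hs, hst⟩ := ht
  classical
  refine ⟨fun o => if o ∈ I then x o else 1, ?_, ?_⟩
  · apply hst
    intro o ho
    simp only [if_pos ho]
    exact mem_of_mem_nhds (hs o)
  · refine hI.subset ?_
    intro o ho
    by_contra hc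
    have h1 : (if o ∈ I then x o else 1) = (0 : ZMod 2) := ho
    rw [if_neg hc] at h1
    exact absurd h1 (by decide)

theorem dense_D0 {x : X} (hx : x o0 = 0) : x ∈ closure D0 := by
  rw [mem_closure_iff_nhds]
  intro t ht
  have hopen : IsOpen {z : X | z o0 = 0} := by
    have : {z : X | z o0 = 0} = (fun z : X => z o0) ⁻¹' {0} := rfl
    rw [this]
    exact (isOpen_discrete _).preimage (continuous_apply o0)
  have ht2 : t ∩ {z : X | z o0 = 0} ∈ 𝓝 x := inter_mem ht (hopen.mem_nhds hx)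
  obtain ⟨y, hy1, hy2⟩ := mem_closure_iff_nhds.1 (dense_D x) _ ht2
  exact ⟨y, hy1.1, hy2, hy1.2⟩

/-- main theorem on `X` -/
theorem main_X : ∃ S : Set X, D ⊆ S ∧ (∀ z w, z ∈ S → Sub z w → w ∈ S) ∧
    (∀ z ∈ S, {o | z o = 1}.Infinite) ∧
    IsEmpty ({z : X | z ∈ S ∧ z o0 = 0} ≃ₜ S) := by
  obtain ⟨e, he⟩ := exists_enum
  refine ⟨SF e, D_subset e, fun z w hz h => SF_up e hz h, fun z hz => SF_infinite e hz, ⟨?_⟩⟩
  intro F
  set U : Set X := {z : X | z ∈ SF e ∧ z o0 = 0} with hU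
  have hD0U : D0 ⊆ U := fun z hz => ⟨D_subset e hz.1, hz.2⟩
  -- candidate maps
  let f : SF e → X := fun z => (F.symm z : X)
  let g : U → X := fun z => (F z : X)
  have hf : Continuous f := continuous_subtype_val.comp F.symm.continuous
  have hg : Continuous g := continuous_subtype_val.comp F.continuous
  obtain ⟨a, ha⟩ := he (fun z => f ⟨z, D_subset e z.2⟩, fun z => g ⟨z, hD0U z.2⟩)
  have hkill := (seq_good e a).2.2.2.2.2
  rw [ha] at hkill
  simp only at hkill
  set φ : D → X := fun z => f ⟨z, D_subset e z.2⟩ with hφ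
  set ψ : D0 → X := fun z => g ⟨z, hD0U z.2⟩ with hψ
  have hext : ∀ z (hz : z ∈ SF e), z ∈ dom D φ ∧ ext D φ z = f ⟨z, hz⟩ := fun z hz =>
    ext_eq D φ (D_subset e) f hf (fun _ => rfl) hz (dense_D z)
  have hext0 : ∀ z (hz : z ∈ U), z ∈ dom D0 ψ ∧ ext D0 ψ z = g ⟨z, hz⟩ := fun z hz =>
    ext_eq D0 ψ hD0U g hg (fun _ => rfl) hz (dense_D0 hz.2)
  have hG : ∀ z (hz : z ∈ SF e), z ∈ G φ ψ := by
    intro z hz
    obtain ⟨h1, h2⟩ := hext z hz
    have h3 : f ⟨z, hz⟩ ∈ U := (F.symm ⟨z, hz⟩).2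
    refine ⟨h1, ?_, ?_, ?_⟩
    · rw [h2]; exact (hext0 _ h3).1
    · rw [h2, (hext0 _ h3).2]
      show ((F (F.symm ⟨z, hz⟩) : SF e) : X) = z
      rw [F.apply_symm_apply]
    · rw [h2]; exact h3.2
  have hi := seq_fst_mem e a
  have hne := seq_snd_not_mem e a
  rcases hkill with h | ⟨_, h⟩ | ⟨hGe, h⟩
  · exact h (hG _ hi)
  · apply hne
    rw [h, (hext _ hi).2]
    exact (F.symm ⟨_, hi⟩).2.1
  · have hU' : (seq e a).1 ∈ U := by
      refine ⟨hi, ?_⟩
      rw [h]
      exact hGe.2.2.2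
    have h5 := (hext0 _ hU').2
    have h6 := hGe.2.2.1
    rw [← h, h5] at h6
    apply hne
    rw [← h6]
    exact (F ⟨_, hU'⟩).2

end Pool.Agent.Helper72.Semi
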